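import Pool.Agent.N598.ST.Main

/-!
# The rank one abelian Stark conjecture in Tate's form: a local-global principle (helper598)

The conjecture for `H / K`, `S`, `p` is the conjunction of its `l`-parts (`l` prime), and the
`l`-part for `H / K` follows from the `l`-parts for the subextensions `L / K` whose Galois group is
the product of an `l`-group and a cyclic group of order prime to `l`.
-/

set_option autoImplicit false

namespace Pool.Agent.Results.MP_ca56d1_nt.LocalGlobal

open NumberField Pool.Agent.N598.ST

/-- Let `K` be a number field, `S` a finite set of places of `K` and `p ∈ S`.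
(1) Let `H / K` be abelian, with `Data K H S p` (the hypotheses of the conjecture), and `l` a prime.
If the `l`-part of the conjecture holds for all extensions `L / K` which embed in `H` and whose
Galois group is the product of an `l`-group and a cyclic group of order prime to `l`, then it holds
for `H / K`.
(2) The conjecture holds for all abelian `H / K` (with `Data K H S p`) if and only if for all primes
`l` its `l`-part holds for all such `H / K` whose Galois group is the product of an `l`-group and a
cyclic group of order prime to `l`. -/
theorem result (K : Type) [Field K] [NumberField K] (S : Finset (Place K)) (p : Place K) :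
    (∀ (H : Type) [Field H] [NumberField H] [Algebra K H] [IsAbelianGalois K H], Data K H S p →
      ∀ l : ℕ, l.Prime →
        (∀ (L : Type) [Field L] [NumberField L] [Algebra K L], Nonempty (L →ₐ[K] H) →
          CyclicOutside l Gal(L/K) → StarkPart K L l S p) → StarkPart K H l S p) ∧
    ((∀ (H : Type) [Field H] [NumberField H] [Algebra K H] [IsAbelianGalois K H],
        Data K H S p → Stark K H S p) ↔
      (∀ l : ℕ, l.Prime → ∀ (H : Type) [Field H] [NumberField H] [Algebra K H]
        [IsAbelianGalois K H], Data K H S p → CyclicOutside l Gal(H/K) →
          StarkPart K H l S p)) := by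
  have h1 : ∀ (H : Type) [Field H] [NumberField H] [Algebra K H] [IsAbelianGalois K H],
      Data K H S p → ∀ l : ℕ, l.Prime →
        (∀ (L : Type) [Field L] [NumberField L] [Algebra K L], Nonempty (L →ₐ[K] H) →
          CyclicOutside l Gal(L/K) → StarkPart K L l S p) → StarkPart K H l S p := by
    intro H _ _ _ _ hD l hl hyp
    exact part_of_sub l hl _ H rfl hD.split hyp
  refine ⟨h1, ?_, ?_⟩
  · intro h l hl H _ _ _ _ hD _
    exact (stark_iff_parts S p).1 (h H hD) l hl
  · intro h H _ _ _ _ hD
    rw [stark_iff_parts]
    intro l hl
    refine h1 H hD l hl ?_
    intro L _ _ _ hL hc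
    obtain ⟨f⟩ := hL
    have : IsAbelianGalois K L := IsAbelianGalois.of_algHom f
    let _ : Algebra L H := f.toRingHom.toAlgebra
    have : IsScalarTower K L H := IsScalarTower.of_algebraMap_eq' f.comp_algebraMap.symm
    exact h l hl L (hD.sub H) hc

end Pool.Agent.Results.MP_ca56d1_nt.LocalGlobal
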