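import Pool.Agent.N739.SU.Fin2

/-!
# The rank-one abelian Stark conjecture: `ζ_S'(g, 0)` from the primes of `K`

Let `H/K` be a finite abelian extension with group `G` and `S` a finite set of places of `K` containing the
archimedean places, the places ramified in `H` and at least one finite place; let `𝔪` be a multiple of the
conductor which is divisible exactly by the primes in `S`, and `art` the Artin map on the ideals prime to
`𝔪`.  Let the place `𝔭 ∈ S`, archimedean or not, split completely in `H`.  For `γ > π/2`, `T > 0` and `g ∈ G`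
let

`P_T(g) = ∑ (1/k) e^{iγ k log N(v) / T} / Γ(1 + k log N(v) / T)`,

the sum over all primes `v ∉ S` and all `k ≥ 1` with `(v^k, H/K) = g`.  This converges absolutely, and the
weight of every single prime power `v^k` tends to `1/k` as `T → ∞`.  Let `Z_T(g)` be the coefficient of `g`
of the exponential `exp(∑_h P_T(h) [h])` in the group ring `ℂ[G]`.  We prove, without any hypothesis,
`ζ_S(g, 0) = 0` and

`ζ_S'(g, 0) = T e^{-Λ} Z_T(g) + O(1/T)` (`T → ∞`), `Λ = ∫_0^∞ (e^{-u} - e^{iγu} / Γ(1 + u)) du / u`.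

So the absolute values `|g(ε)|_𝔓 = exp(-W ζ_S'(g, 0))` which Stark's conjecture prescribes are the limits of
`exp(-W T e^{-Λ} Z_T(g))`, expressions in which only the norms and the Artin symbols of the primes outside
`S` occur; the equations of the problem hold for `ε` if and only if these expressions tend to `|g(ε)|_𝔓`
for all `g` along one sequence `T_n → ∞`.
-/

set_option autoImplicit false

open scoped Classical

namespace Pool.Agent.Results.MP_ca56d1_nt.UnitsFromPrimes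

open NumberField IsDedekindDomain Filter Topology

section defs

variable {K : Type} [Field K] [NumberField K]

/-- the ideals prime to `𝔪` -/
def PrimeTo (𝔪 : Ideal (𝓞 K)) : Submonoid (Ideal (𝓞 K)) where
  carrier := {𝔞 | IsCoprime 𝔞 𝔪}
  mul_mem' hx hy := IsCoprime.mul_left hx hy
  one_mem' := isCoprime_one_left

/-- `art` is the Artin map of a finite abelian extension `H/K` with group `G` on the ideals prime to
`𝔪`, where `𝔪` is a multiple of the conductor of `H/K`: a surjective homomorphism which is trivial on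
`(x)` for all totally positive `x ≡ 1 mod 𝔪`.  (By class field theory these homomorphisms are exactly the
Artin maps.) -/
structure IsArtinMap (𝔪 : Ideal (𝓞 K)) {G : Type} [CommGroup G] (art : PrimeTo 𝔪 →* G) :
    Prop where
  surj : Function.Surjective art
  triv : ∀ x : 𝓞 K, x - 1 ∈ 𝔪 → (∀ σ : K →+* ℝ, 0 < σ (x : K)) →
    ∀ 𝔞 : PrimeTo 𝔪, (𝔞 : Ideal (𝓞 K)) = Ideal.span {x} → art 𝔞 = 1

/-- the infinite place `w` splits completely in `H`: `art` is also trivial on the `(x)`, `x ≡ 1 mod 𝔪`,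
with `x` positive at the real places different from `w` (for a complex `w` this is automatic) -/
def SplitsInf {𝔪 : Ideal (𝓞 K)} {G : Type} [CommGroup G] (art : PrimeTo 𝔪 →* G)
    (w : InfinitePlace K) : Prop :=
  ∀ x : 𝓞 K, x - 1 ∈ 𝔪 → (∀ v : InfinitePlace K, v.IsReal → v ≠ w → 0 < (v.embedding (x : K)).re) →
    ∀ 𝔞 : PrimeTo 𝔪, (𝔞 : Ideal (𝓞 K)) = Ideal.span {x} → art 𝔞 = 1

/-- the prime `v` (which may divide `𝔪`) splits completely in `H`: if `𝔪 = v^n 𝔫` with `v ∤ 𝔫`, then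
`art 𝔟 = 1` for all `𝔟` prime to `𝔪` such that some `v^k 𝔟` is generated by a totally positive
`x ≡ 1 mod 𝔫` -/
def SplitsFin {𝔪 : Ideal (𝓞 K)} {G : Type} [CommGroup G] (art : PrimeTo 𝔪 →* G)
    (v : HeightOneSpectrum (𝓞 K)) : Prop :=
  ∀ (𝔫 : Ideal (𝓞 K)) (n : ℕ), 𝔪 = v.asIdeal ^ n * 𝔫 → IsCoprime v.asIdeal 𝔫 →
    ∀ (x : 𝓞 K) (k : ℕ) (𝔟 : PrimeTo 𝔪), x - 1 ∈ 𝔫 → (∀ σ : K →+* ℝ, 0 < σ (x : K)) →
      Ideal.span {x} = v.asIdeal ^ k * (𝔟 : Ideal (𝓞 K)) → art 𝔟 = 1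

/-- the place `p`, infinite or a prime dividing `𝔪` (that is, `p ∈ S`), splits completely in `H` -/
def SplitsCompletely {𝔪 : Ideal (𝓞 K)} {G : Type} [CommGroup G] (art : PrimeTo 𝔪 →* G) :
    InfinitePlace K ⊕ HeightOneSpectrum (𝓞 K) → Prop
  | .inl w => SplitsInf art w
  | .inr v => v.asIdeal ∣ 𝔪 ∧ SplitsFin art v

variable {𝔪 : Ideal (𝓞 K)} {G : Type} [CommGroup G]

/-- the partial zeta function `ζ(s, A) = ∑ N(𝔞)^{-s}`, over the integral ideals `𝔞` prime to `𝔪` with Artin symbol `A` -/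
noncomputable def zeta (art : PrimeTo 𝔪 →* G) (A : G) (s : ℂ) : ℂ :=
  ∑' 𝔞 : Ideal (𝓞 K), if (∃ h : IsCoprime 𝔞 𝔪, art ⟨𝔞, h⟩ = A) then
    ((Ideal.absNorm 𝔞 : ℕ) : ℂ) ^ (-s) else 0

/-- `Z` is the continuation of `ζ(s, A)`: meromorphic in the plane, equal to it for `Re s > 1` -/
def IsContinuation (art : PrimeTo 𝔪 →* G) (A : G) (Z : ℂ → ℂ) : Prop :=
  (∀ s, MeromorphicAt Z s) ∧ ∀ s : ℂ, 1 < s.re → Z s = zeta art A s

/-- the weight of the prime power `v^k`, `x = (v, k - 1)`: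
`(1/k) e^{iγ k log N(v) / T} / Γ(1 + k log N(v) / T)` -/
noncomputable def weight (γ T : ℝ) (x : HeightOneSpectrum (𝓞 K) × ℕ) : ℂ :=
  1 / (x.2 + 1) * (Complex.exp ((γ * ((x.2 + 1) * Real.log (Ideal.absNorm x.1.asIdeal) / T) : ℝ) *
    Complex.I) / (Real.Gamma (1 + (x.2 + 1) * Real.log (Ideal.absNorm x.1.asIdeal) / T) : ℂ))

/-- the prime power `v^k`, `x = (v, k - 1)`, is prime to `𝔪` and has the Artin symbol `B` -/
def InClass (art : PrimeTo 𝔪 →* G) (B : G) (x : HeightOneSpectrum (𝓞 K) × ℕ) : Prop :=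
  ∃ h : IsCoprime x.1.asIdeal 𝔪, art ⟨x.1.asIdeal, h⟩ ^ (x.2 + 1) = B

/-- `P_T(B)` -/
noncomputable def P (art : PrimeTo 𝔪 →* G) (γ T : ℝ) (B : G) : ℂ :=
  ∑' x : HeightOneSpectrum (𝓞 K) × ℕ, if InClass art B x then weight γ T x else 0

/-- `Z_T(A)`, the coefficient of `A` of `exp(∑_B P_T(B) [B])` -/
noncomputable def Z (art : PrimeTo 𝔪 →* G) (γ T : ℝ) (A : G) : ℂ :=
  (Nat.card G : ℂ)⁻¹ * ∑ᶠ χ : G →* ℂˣ, ((χ A⁻¹ : ℂˣ) : ℂ) *
    Complex.exp (∑ᶠ B : G, ((χ B : ℂˣ) : ℂ) * P art γ T B)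

/-- `Λ = ∫_0^∞ (e^{-u} - e^{iγu} / Γ(1 + u)) du / u` -/
noncomputable def Lam (γ : ℝ) : ℂ := ∫ u in Set.Ioi (0 : ℝ),
  (Complex.exp (-(u : ℂ)) - Complex.exp ((γ * u : ℝ) * Complex.I) * ((Real.Gamma (1 + u))⁻¹ : ℝ)) / u

/-- `T e^{-Λ} Z_T(A)` -/
noncomputable def approx (art : PrimeTo 𝔪 →* G) (γ T : ℝ) (A : G) : ℂ :=
  (T : ℂ) * Complex.exp (-Lam γ) * Z art γ T A

end defs

/-- **Main theorem.**  Let `K` be a number field, `𝔪 ≠ 0, 𝒪_K` an integral ideal (`S` consists of the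
archimedean places and the primes dividing `𝔪`), `G` a finite commutative group, `art` the Artin map of an
abelian extension `H/K` with group `G` on the ideals prime to `𝔪`, and `γ > π/2`.  Let a place `𝔭 ∈ S`,
archimedean or not, split completely in `H`.
* The sums `P_T(g)` converge absolutely.
* Every partial zeta function has a continuation, and there are real numbers `D(g) = ζ_S'(g, 0)` with
  `Z(s) / s → D(g)` as `s → 0` for the continuation `Z` of `ζ_S(g, s)` (so that `ζ_S(g, 0) = 0`) and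
  `T e^{-Λ} Z_T(g) = D(g) + O(1/T)`.
* For every real `W` and positive real numbers `a_g`: `log a_g = -W ζ_S'(g, 0)` for all `g ∈ G` if and only
  if there is a sequence `T_n → ∞` along which `exp(-W T e^{-Λ} Z_T(g)) → a_g` for all `g`. -/
theorem result (K : Type) [Field K] [NumberField K] (𝔪 : Ideal (𝓞 K)) (hbot : 𝔪 ≠ ⊥) (htop : 𝔪 ≠ ⊤)
    (G : Type) [CommGroup G] [Finite G] (art : PrimeTo 𝔪 →* G) (hart : IsArtinMap 𝔪 art)
    (𝔭 : InfinitePlace K ⊕ HeightOneSpectrum (𝓞 K)) (h𝔭 : SplitsCompletely art 𝔭)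
    (γ : ℝ) (hγ : Real.pi / 2 < γ) :
    (∀ T : ℝ, 0 < T → ∀ g : G, Summable fun x => ‖if InClass art g x then weight γ T x else 0‖) ∧
    ∃ D : G → ℝ, (∀ g : G, (∃ Z, IsContinuation art g Z) ∧
      (∀ Z, IsContinuation art g Z → Tendsto (fun s : ℂ => Z s / s) (𝓝[≠] 0) (𝓝 (D g : ℂ))) ∧
      (fun T : ℝ => approx art γ T g - D g) =O[atTop] (fun T : ℝ => 1 / T)) ∧
      ∀ (W : ℝ) (a : G → ℝ), (∀ g, 0 < a g) →
        ((∀ g, Real.log (a g) = -W * D g) ↔
          ∃ t : ℕ → ℝ, Tendsto t atTop atTop ∧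
            ∀ g, Tendsto (fun n => Complex.exp (-W * approx art γ (t n) g)) atTop (𝓝 (a g : ℂ))) := by
  have hT : Pool.Agent.N739.SU.Triv (𝔮 := 𝔪) art := fun x hx hp => hart.triv x hx hp _ rfl
  have hr : Pool.Agent.N739.SU.OrdGe htop (𝔮 := 𝔪) art 1 := by
    have h1 := Pool.Agent.N739.SU.ordGe_V hbot htop (𝔮 := 𝔪) hart.surj hT {𝔭} (fun p hp => by
      rw [Finset.mem_singleton] at hp
      subst hp
      cases p with
      | inl w => exact fun x hx hv => h𝔭 x hx hv _ rfl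
      | inr v => exact h𝔭) (by
        rw [Finset.card_singleton]
        exact Pool.Agent.N739.SU.two_le_S hbot htop)
    rwa [Finset.card_singleton] at h1
  obtain ⟨D₀, hD₀⟩ := Pool.Agent.N739.SU.main hbot htop hT hr hγ
  obtain ⟨D, hDD⟩ : ∃ D : G → ℝ, ∀ A, (D A : ℂ) = D₀ A :=
    ⟨fun A => (D₀ A).re, fun A => Pool.Agent.N739.SU.real_of (hD₀ A).1 (hD₀ A).2.1⟩
  have hD := hD₀
  simp only [← hDD] at hD
  have hO : ∀ A, (fun T : ℝ => approx art γ T A - D A) =O[atTop] (fun T : ℝ => 1 / T) := by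
    intro A
    refine (hD A).2.2.congr_left fun T => ?_
    rw [pow_one]
    rfl
  refine ⟨fun T hT0 B => Pool.Agent.N739.SU.summ hbot htop hT γ hT0 B, D, fun A => ⟨?_, ?_, hO A⟩,
    fun W a ha => ?_⟩
  · obtain ⟨Z, hZ⟩ := (hD A).1
    exact ⟨Z, hZ⟩
  · intro Z hZ
    refine ((hD A).2.1 Z hZ).congr fun s => ?_
    rw [pow_one, div_eq_inv_mul]
  · exact Pool.Agent.N739.SU.log_iff' (f := fun A T => approx art γ T A) hO W ha

end Pool.Agent.Results.MP_ca56d1_nt.UnitsFromPrimes
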